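import Mathlib

set_option autoImplicit false

namespace Pool.Agent.Results.MP_c6110c_co.Log

open Finset Real Classical

/-- Monotone functions from a subset of the chain `Fin m` to the chain `Fin t`;
`none` marks a point outside the domain. -/
abbrev MPF (m t : ℕ) : Type :=
  {f : Fin m → Option (Fin t) // ∀ x y a b, x ≤ y → f x = some a → f y = some b → a ≤ b}

noncomputable def ψ (x : ℝ) : ℝ := (x + 1) * log (x + 1) - x * log x

theorem anti : AntitoneOn (fun x => ψ (x + 1) - ψ x) (Set.Ici 0) := by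
  have c : Continuous ψ := (continuous_mul_log.comp (continuous_add_const 1)).sub continuous_mul_log
  have d : ∀ x : ℝ, 0 < x → HasDerivAt ψ (log (x + 1) - log x) x := fun x hx => by
    have := ((hasDerivAt_mul_log (x := x + 1) (by positivity)).comp_add_const x 1).sub
      (hasDerivAt_mul_log hx.ne')
    exact this.congr_deriv (by ring)
  refine antitoneOn_of_hasDerivWithinAt_nonpos (convex_Ici 0)
    (f' := fun x => (log (x + 1 + 1) - log (x + 1)) - (log (x + 1) - log x))
    ((c.comp (continuous_add_const 1)).sub c).continuousOn (fun x hx => ?_) fun x hx => ?_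
  · rw [interior_Ici] at hx
    exact (((d (x + 1) (by linarith [hx.out])).comp_add_const x 1).sub (d x hx)).hasDerivWithinAt
  · rw [interior_Ici] at hx
    have h : 0 < x := hx
    have := log_le_log (by positivity) (show (x + 1 + 1) * x ≤ (x + 1) * (x + 1) by nlinarith)
    rw [log_mul (by positivity) h.ne', log_mul (by positivity) (by positivity)] at this
    linarith

noncomputable def g (n : ℕ) : ℝ := ψ (n + 1) - ψ n

theorem g_anti {a b : ℕ} (h : a ≤ b) : g b ≤ g a :=
  anti (Set.mem_Ici.mpr a.cast_nonneg) (Set.mem_Ici.mpr b.cast_nonneg) (by exact_mod_cast h)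

theorem g_pos (n : ℕ) : 0 ≤ g n := by
  have := convexOn_mul_log.2 (Set.mem_Ici.mpr n.cast_nonneg)
    (Set.mem_Ici.mpr (by positivity : (0 : ℝ) ≤ n + 1 + 1)) (by norm_num : (0 : ℝ) ≤ 1 / 2)
    (by norm_num : (0 : ℝ) ≤ 1 / 2) (by norm_num)
  simp only [smul_eq_mul] at this
  rw [show (1 / 2 * n + 1 / 2 * (n + 1 + 1) : ℝ) = n + 1 by ring] at this
  simp only [g, ψ]
  linarith

theorem tele (q k : ℕ) : ∑ i ∈ range k, g (q + i) = ψ (q + k) - ψ q := by
  induction k with
  | zero => simp
  | succ k ih => rw [sum_range_succ, ih, g]; push_cast; ring_nf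

theorem L1 {m : ℕ} (y q : ℕ) (A : Finset (Fin m)) (h : ∀ x ∈ A, x.val + q + 1 ≤ y) :
    ∑ x ∈ A, g (y - x - 1) ≤ ψ (q + #A) - ψ q := by
  rw [← tele]
  induction A using Finset.induction_on_min with
  | empty => simp
  | insert a s hs ih =>
    have n : a ∉ s := fun k => lt_irrefl _ (hs a k)
    rw [sum_insert n, card_insert_of_notMem n, sum_range_succ, add_comm]
    refine add_le_add (ih fun x hx => h x (mem_insert_of_mem hx)) (g_anti ?_)
    have := card_le_card_of_injOn (s := s) (t := Ioo a.val (y - q)) Fin.val (fun x hx => by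
      have := h x (mem_insert_of_mem hx)
      have : a.val < x.val := hs x hx
      simp only [coe_Ioo, Set.mem_Ioo]; omega) Fin.val_injective.injOn
    have := h a (mem_insert_self _ _)
    rw [Nat.card_Ioo] at *
    omega

theorem L2 {m : ℕ} (X : Finset (Fin m)) :
    ∑ y ∈ X, ψ #(X.filter (· < y)) = #X * log #X := by
  induction X using Finset.induction_on_max with
  | empty => simp
  | insert a s hs ih =>
    have n : a ∉ s := fun k => lt_irrefl _ (hs a k)
    rw [sum_insert n, card_insert_of_notMem n, filter_insert, if_neg (lt_irrefl _),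
      filter_true_of_mem hs, sum_congr rfl fun y hy => by
        rw [filter_insert, if_neg (hs y hy).not_gt], ih, ψ]
    push_cast
    ring

theorem jensen (t : ℕ) (ht : 0 < t) (s : Fin t → ℕ) :
    (∑ c, s c : ℕ) * log (∑ c, s c : ℕ) - ∑ c, s c * log (s c) ≤ (∑ c, s c : ℕ) * log t := by
  set S : ℕ := ∑ c, s c with hS
  have t0 : (0 : ℝ) < t := by exact_mod_cast ht
  have : ∀ c, s c * (log S - log t) - s c * log (s c) ≤ S / t - s c := fun c => by
    rcases (s c).eq_zero_or_pos with h | h
    · simp only [h, Nat.cast_zero, zero_mul, sub_zero]; positivity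
    · have a : (0 : ℝ) < s c := by exact_mod_cast h
      have b : (0 : ℝ) < S := by
        exact_mod_cast h.trans_le (single_le_sum (fun _ _ => Nat.zero_le _) (mem_univ c))
      have := mul_le_mul_of_nonneg_left (log_le_sub_one_of_pos (x := S / t / s c) (by positivity)) a.le
      rw [log_div (by positivity) a.ne', log_div b.ne' t0.ne', mul_sub _ _ 1,
        mul_div_cancel₀ _ a.ne'] at this
      linarith
  have := sum_le_sum fun c (_ : c ∈ univ) => this c
  simp only [sum_sub_distrib, ← sum_mul, ← Nat.cast_sum, ← hS, sum_const, card_univ,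
    Fintype.card_fin, nsmul_eq_mul, mul_div_cancel₀ _ t0.ne'] at this
  linarith

theorem one {m t : ℕ} (ht : 0 < t) (f : MPF m t) :
    ∑ y : Fin m, ∑ x ∈ univ.filter (fun x => ∃ a b, f.1 x = some a ∧ f.1 y = some b ∧ a < b),
      g (y - x - 1) ≤ #(univ.filter fun x => f.1 x ≠ none) * log t := by
  set D := univ.filter fun x => f.1 x ≠ none with hD
  let X : Fin t → Finset (Fin m) := fun c => univ.filter fun x => f.1 x = some c
  have s : ∀ F : Fin m → ℝ, ∑ y ∈ D, F y = ∑ c, ∑ y ∈ X c, F y := fun F => by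
    simp only [hD, X, sum_filter]
    rw [sum_comm]
    refine sum_congr rfl fun y _ => ?_
    cases f.1 y <;> simp
  have c : #D = ∑ c, #(X c) := by
    have := s fun _ => 1
    simp only [sum_const, nsmul_eq_mul, mul_one] at this
    exact_mod_cast this
  refine le_trans ?_ (c ▸ jensen t ht fun c => #(X c))
  rw [← L2, ← sum_subset (subset_univ D) fun y _ hy => sum_eq_zero fun x hx => by
    obtain ⟨a, b, -, h, -⟩ := (mem_filter.mp hx).2
    simp [hD, h] at hy, s, s, ← sum_sub_distrib]
  refine sum_le_sum fun c _ => ?_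
  rw [← L2, ← sum_sub_distrib]
  refine sum_le_sum fun y hy => ?_
  have hy := (mem_filter.mp hy).2
  refine (L1 y #((X c).filter (· < y)) _ fun x hx => ?_).trans (le_of_eq ?_)
  · obtain ⟨a, b, h1, h2, h3⟩ := (mem_filter.mp hx).2
    obtain rfl : c = b := Option.some.inj (hy.symm.trans h2)
    have l : x < y := lt_of_not_ge fun k => h3.not_ge (f.2 _ _ _ _ k hy h1)
    have := card_le_card (s := (X c).filter (· < y)) (t := Ioo x y) fun z hz => by
      simp only [X, mem_filter, mem_univ, true_and] at hz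
      exact mem_Ioo.mpr ⟨lt_of_not_ge fun k => h3.not_ge (f.2 _ _ _ _ k hz.1 h1), hz.2⟩
    rw [Fin.card_Ioo] at this
    have : x.val < y.val := l
    omega
  · rw [← Nat.cast_add, ← card_union_of_disjoint (disjoint_left.mpr fun z h1 h2 => by
      simp only [X, mem_filter, mem_univ, true_and, hy] at h1 h2
      simp [h1.1] at h2)]
    congr 4
    ext z
    simp only [X, hD, mem_union, mem_filter, mem_univ, true_and, hy]
    constructor
    · rintro (⟨h, l⟩ | ⟨a, b, h1, h2, h3⟩)
      · exact ⟨by simp [h], l⟩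
      · obtain rfl := Option.some.inj h2
        exact ⟨by simp [h1], lt_of_not_ge fun k => h3.not_ge (f.2 _ _ _ _ k hy h1)⟩
    · rintro ⟨h, l⟩
      obtain ⟨a, ha⟩ := Option.ne_none_iff_exists'.mp h
      rcases (f.2 _ _ _ _ l.le ha hy).eq_or_lt with e | e
      · exact .inl ⟨e ▸ ha, l⟩
      · exact .inr ⟨a, c, ha, rfl, e⟩

theorem result (t m : ℕ) (ht : 2 ≤ t) (hm : 1 ≤ m) (w : MPF m t → ℝ) (h0 : ∀ f, 0 ≤ w f)
    (h : ∀ x y : Fin m, ¬ x ≥ y →
      1 ≤ ∑ f ∈ univ.filter (fun f : MPF m t => ∃ a b, f.1 x = some a ∧ f.1 y = some b ∧ a < b), w f) :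
    ∃ x : Fin m, logb t m ≤ ∑ f ∈ univ.filter (fun f : MPF m t => f.1 x ≠ none), w f := by
  by_contra! k
  have l : 0 < log t := log_pos (by exact_mod_cast ht)
  have : Nonempty (Fin m) := ⟨⟨0, hm⟩⟩
  have a := sum_lt_sum_of_nonempty univ_nonempty fun x (_ : x ∈ univ) => k x
  have b : (m : ℝ) * log m = ∑ y : Fin m, ∑ x ∈ Iio y, g (y - x - 1) := by
    have := L2 (univ : Finset (Fin m))
    rw [card_univ, Fintype.card_fin] at this
    rw [← this]
    refine sum_congr rfl fun y _ => ?_
    have e := tele 0 y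
    simp only [zero_add, Nat.cast_zero] at e
    rw [filter_gt_eq_Iio, Fin.card_Iio, ← sub_zero (ψ y), show (0 : ℝ) = ψ 0 by simp [ψ], ← e,
      ← sum_range_reflect]
    refine (sum_bij (fun x _ => x.val) (fun x hx => by simpa using hx)
      (fun _ _ _ _ => Fin.val_injective.eq_iff.mp)
      (fun x hx => ⟨⟨x, (mem_range.mp hx).trans y.2⟩, by simpa [Fin.lt_def] using hx, rfl⟩)
      fun x _ => by rw [Nat.sub_right_comm]).symm
  have c : ∑ y : Fin m, ∑ x ∈ Iio y, g (y - x - 1) ≤ ∑ f : MPF m t, w f * ∑ y : Fin m,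
      ∑ x ∈ univ.filter (fun x => ∃ a b, f.1 x = some a ∧ f.1 y = some b ∧ a < b), g (y - x - 1) := by
    simp only [mul_sum, sum_filter]
    rw [sum_comm]
    refine sum_le_sum fun y _ => ?_
    rw [sum_comm]
    refine le_trans (sum_le_sum fun x hx => ?_) (sum_le_sum_of_subset_of_nonneg (subset_univ (Iio y))
      fun x _ _ => sum_nonneg fun f _ => mul_nonneg (h0 f) (by split_ifs; exacts [g_pos _, le_rfl]))
    refine (le_mul_of_one_le_left (g_pos _) (h x y (mem_Iio.mp hx).not_ge)).trans (le_of_eq ?_)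
    simp only [sum_filter, sum_mul, ite_mul, zero_mul, mul_ite, mul_zero]
  have d := sum_le_sum fun f (_ : f ∈ univ) => mul_le_mul_of_nonneg_left (one (by omega) f) (h0 f)
  have e : ∑ f : MPF m t, w f * (#(univ.filter fun x => f.1 x ≠ none) * log t) =
      (∑ x : Fin m, ∑ f ∈ univ.filter (fun f : MPF m t => f.1 x ≠ none), w f) * log t := by
    simp only [sum_filter, card_filter, Nat.cast_sum, ← mul_assoc, ← sum_mul, mul_sum]
    rw [sum_comm]
    simp
  rw [sum_const, card_univ, Fintype.card_fin, nsmul_eq_mul, logb, ← mul_div_assoc, lt_div_iff₀ l] at a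
  linarith

end Pool.Agent.Results.MP_c6110c_co.Log
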